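import Mathlib
import Pool.Agent.Q273.CG.Dil

set_option autoImplicit false

/-!
# Dilated sequences all of whose terms lie in long prime gaps, with prescribed last digits

Let `x_0, x_1, …` be any sequence of positive real numbers with `x_{n+1} / x_n → ∞` (for instance
`n!`, `2^(n²)`, `exp (c^n)`). For most `α` in the sense of Hausdorff dimension ALL the numbers
`α x_n`, `n ≥ n₀`, lie in the middle of a prime gap of length `≥ c f(x_n / x_{n-1})`, where
`f(x) = log x (log₂ x)² log₄ x / (log₃ x)²` is the record scale of the starting files, and their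
integer parts can be prescribed modulo numbers `d_n` without large prime factors: the dimension of
the set of these `α` is at least `1 - ε`, with `c` depending on `ε` only; and it is `1` if `c` may
depend on `α`. If `x_{n+1} ≥ x_n^(1+δ)`, the gaps are of the record length `c f(x_n)`.
-/

open Filter Topology

namespace Pool.Agent.Results.MP_3bc45c_nt.AllTermsInLongGaps

/-- The record scale `f(x) = log x (log₂ x)² log₄ x / (log₃ x)²` (iterated natural logarithms). -/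
noncomputable def f (x : ℝ) : ℝ :=
  Real.log x * (Real.log (Real.log x)) ^ 2 * Real.log (Real.log (Real.log (Real.log x))) /
    (Real.log (Real.log (Real.log x))) ^ 2

/-- Every prime is at a distance greater than `H` from the real number `y`. -/
def Far (H y : ℝ) : Prop := ∀ q : ℕ, q.Prime → H < |(q : ℝ) - y|

/-- 1. relates `Far` to gaps between consecutive primes (`Nat.nth Nat.Prime m` is the prime with
index `m`, counted from `0`). 2. is the theorem with a uniform constant, 3. the version with a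
constant which depends on `α`, 4. the case of sequences with `x_{n+1} ≥ x_n^(1+δ)`. -/
theorem result :
    (∀ H y : ℝ, 2 ≤ y → Far H y → ∃ m : ℕ,
      (Nat.nth Nat.Prime m : ℝ) ≤ y ∧ y ≤ (Nat.nth Nat.Prime (m + 1) : ℝ) ∧
      2 * H < (Nat.nth Nat.Prime (m + 1) : ℝ) - (Nat.nth Nat.Prime m : ℝ)) ∧
    (∀ ε : ℝ, 0 < ε → ε < 1 → ∀ B : ℕ, ∃ c : ℝ, 0 < c ∧
      ∀ x : ℕ → ℝ, (∀ n, 0 < x n) → Tendsto (fun n => x (n + 1) / x n) atTop atTop →
      ∀ d r : ℕ → ℕ, (∀ n, 1 ≤ d n) → (∀ n, ∀ p : ℕ, p.Prime → p ∣ d n → p ≤ B) →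
      (∀ᶠ n in atTop, (d n : ℝ) ≤ (x (n + 1) / x n) ^ (ε / 4)) →
      ∀ u v : ℝ, 0 < u → u < v → ENNReal.ofReal (1 - ε) ≤
        dimH {α : ℝ | u < α ∧ α < v ∧ ∀ᶠ n in atTop, ⌊α * x (n + 1)⌋₊ ≡ r n [MOD d n] ∧
          Far (c * f (x (n + 1) / x n)) (α * x (n + 1))}) ∧
    (∀ B : ℕ, ∀ x : ℕ → ℝ, (∀ n, 0 < x n) → Tendsto (fun n => x (n + 1) / x n) atTop atTop →
      ∀ d r : ℕ → ℕ, (∀ n, 1 ≤ d n) → (∀ n, ∀ p : ℕ, p.Prime → p ∣ d n → p ≤ B) →
      (∀ η : ℝ, 0 < η → ∀ᶠ n in atTop, (d n : ℝ) ≤ (x (n + 1) / x n) ^ η) →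
      ∀ u v : ℝ, 0 < u → u < v →
        dimH {α : ℝ | u < α ∧ α < v ∧ ∃ c : ℝ, 0 < c ∧ ∀ᶠ n in atTop,
          ⌊α * x (n + 1)⌋₊ ≡ r n [MOD d n] ∧
          Far (c * f (x (n + 1) / x n)) (α * x (n + 1))} = 1) ∧
    (∀ δ : ℝ, 0 < δ → ∀ x : ℕ → ℝ, (∀ n, 0 < x n) → Tendsto x atTop atTop →
      (∀ᶠ n in atTop, (x n) ^ (1 + δ) ≤ x (n + 1)) → ∀ u v : ℝ, 0 < u → u < v →
        dimH {α : ℝ | u < α ∧ α < v ∧ ∃ c : ℝ, 0 < c ∧ ∀ᶠ n in atTop,
          Far (c * f (x n)) (α * x n)} = 1) :=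
  ⟨fun _ _ hy h => Pool.Agent.Q273.CG.Far.gap hy h,
    fun ε h0 h1 B => Pool.Agent.Q273.CG.dil_core ε h0 h1 B,
    fun B x hx hR d r hd hdB hdR u v hu huv =>
      Pool.Agent.Q273.CG.dil_one B x hx hR d r hd hdB hdR u v hu huv,
    fun δ hδ x hx hxt hR u v hu huv => Pool.Agent.Q273.CG.dil_record δ hδ x hx hxt hR u v hu huv⟩

end Pool.Agent.Results.MP_3bc45c_nt.AllTermsInLongGaps
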