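import Pool.Agent.Q130.PV.Pow

set_option autoImplicit false

/-! # Prime gaps of record length at all coordinates of Fourier-uniform families of vectors

Let `f(N) = log N (log₂ N)² log₄ N / (log₃ N)²`, the order of the largest known prime gaps.

* (A) A family of vectors with coordinates modulo `n 1, ..., n r` all of whose nontrivial Fourier
  coefficients save a power of `N` over the density of a box contains at least the expected number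
  times `N ^ (-ε)` of members of the box with no prime within `κ f(N)` of ANY of the coordinates.
* (B) The same for the points of the modular hyperbolas `x y ≡ c (mod p)` in boxes `I × J` with
  `|I| |J| ≥ p ^ (3 / 2 + ε)`.
* (C) The same for the points `(x, b g ^ x mod p)`, `x` below the order `t` of `g`, in such boxes;
  and also for `t ≥ p ^ (3 / 7 + ε)` and boxes of density at least `p ^ (-ε / 2)`. -/

namespace Pool.Agent.Results.MP_3bc45c_nt.FourierUniformFamilies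

open Finset

/-- the order of the largest known prime gaps -/
noncomputable def f (N : ℝ) : ℝ :=
  Real.log N * (Real.log (Real.log N)) ^ 2 * Real.log (Real.log (Real.log (Real.log N))) /
    (Real.log (Real.log (Real.log N))) ^ 2

/-- no prime is within `D` of `v` -/
def Far (D : ℝ) (v : ℕ) : Prop := ∀ q : ℕ, q.Prime → D < |(q : ℝ) - v|

open scoped Classical in
theorem result (ε : ℝ) (h0 : 0 < ε) (h1 : ε ≤ 1 / 3) :
    -- (A) Fourier-uniform families of vectors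
    (∀ r : ℕ, 1 ≤ r → ∀ A : ℕ, ∃ κ : ℝ, 0 < κ ∧ ∃ N₀ : ℝ, ∀ N : ℝ, N₀ ≤ N →
      ∀ (ι : Type) (s : Finset ι) (n : Fin r → ℕ) [∀ j, NeZero (n j)] (v : ι → Fin r → ℕ)
        (u L : Fin r → ℕ),
      (∀ j, N ≤ n j ∧ (n j : ℝ) ≤ N ^ A ∧ u j + L j ≤ n j ∧ N ^ ε ≤ L j) →
      (∀ i ∈ s, ∀ j, v i j < n j) →
      (∀ h : (∀ j, ZMod (n j)), h ≠ 0 →
        ‖∑ i ∈ s, ∏ j, (ZMod.stdAddChar (h j * ((v i j : ℕ) : ZMod (n j))) : ℂ)‖ ≤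
          s.card * (∏ j, ((L j : ℝ) / n j)) * N ^ (-ε)) →
      s.card * (∏ j, ((L j : ℝ) / n j)) * N ^ (-ε) ≤
        ((s.filter (fun i => ∀ j, (u j ≤ v i j ∧ v i j < u j + L j) ∧
          Far (κ * f N) (v i j))).card : ℝ)) ∧
    -- (B) modular hyperbolas
    (∃ κ : ℝ, 0 < κ ∧ ∃ P₀ : ℕ, ∀ p : ℕ, P₀ ≤ p → p.Prime → ∀ c : ℕ, ¬ p ∣ c →
      ∀ u₁ L₁ u₂ L₂ : ℕ, u₁ + L₁ ≤ p → u₂ + L₂ ≤ p → (p : ℝ) ^ (3 / 2 + ε) ≤ (L₁ : ℝ) * L₂ →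
      (L₁ : ℝ) * L₂ / (p : ℝ) ^ (1 + ε) ≤
        (((Ico u₁ (u₁ + L₁) ×ˢ Ico u₂ (u₂ + L₂)).filter (fun w : ℕ × ℕ =>
          w.1 * w.2 ≡ c [MOD p] ∧ Far (κ * f p) w.1 ∧ Far (κ * f p) w.2)).card : ℝ)) ∧
    -- (C) exponents and powers
    (∃ κ : ℝ, 0 < κ ∧ ∃ P₀ : ℕ, ∀ p : ℕ, P₀ ≤ p → p.Prime → ∀ g b : ZMod p, b ≠ 0 →
      ∀ u₁ L₁ u₂ L₂ : ℕ, u₁ + L₁ ≤ orderOf g → u₂ + L₂ ≤ p →
      ((p : ℝ) ^ (3 / 2 + ε) ≤ (L₁ : ℝ) * L₂ ∨ ((p : ℝ) ^ (3 / 7 + ε) ≤ orderOf g ∧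
        orderOf g * (p : ℝ) ^ (-(ε / 4)) ≤ L₁ ∧ (p : ℝ) ^ (1 - ε / 4) ≤ L₂)) →
      (L₁ : ℝ) * L₂ / (p : ℝ) ^ (1 + ε) ≤
        (((Ico u₁ (u₁ + L₁)).filter (fun x : ℕ => Far (κ * f p) x ∧
          (b * g ^ x).val ∈ Ico u₂ (u₂ + L₂) ∧ Far (κ * f p) (b * g ^ x).val)).card : ℝ)) := by
  refine ⟨?_, ?_, ?_⟩
  · intro r hr A
    obtain ⟨κ, hκ, hN⟩ := Pool.Agent.Q130.PV.main r hr A ε h0 (by linarith)
    obtain ⟨N₀, hN₀⟩ := Filter.eventually_atTop.1 hN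
    refine ⟨κ, hκ, N₀, fun N hN ι s n _ v u L a1 a2 a3 => ?_⟩
    exact hN₀ N hN ι s n v u L (fun j => (a1 j).1) (fun j => (a1 j).2.1) a2
      (fun j => (a1 j).2.2.1) (fun j => (a1 j).2.2.2) a3
  · obtain ⟨κ, hκ, hp⟩ := Pool.Agent.Q130.PV.hyperbola ε h0 (by linarith)
    obtain ⟨P₀, hP₀⟩ := Filter.eventually_atTop.1 hp
    refine ⟨κ, hκ, P₀, fun p hp hprime c hc u₁ L₁ u₂ L₂ a1 a2 a3 => ?_⟩
    have hc' : (c : ZMod p) ≠ 0 := by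
      rw [Ne, ZMod.natCast_eq_zero_iff]
      exact hc
    refine (hP₀ p hp hprime c hc' u₁ L₁ u₂ L₂ a1 a2 a3).trans ?_
    have : (((range p ×ˢ range p).filter (fun w : ℕ × ℕ => ((w.1 * w.2 : ℕ) : ZMod p) = c)).filter
          (fun w => ((u₁ ≤ w.1 ∧ w.1 < u₁ + L₁) ∧
          ∀ q : ℕ, q.Prime → κ * Pool.Agent.W147.PS.ff p < |(q : ℝ) - w.1|) ∧
          ((u₂ ≤ w.2 ∧ w.2 < u₂ + L₂) ∧
          ∀ q : ℕ, q.Prime → κ * Pool.Agent.W147.PS.ff p < |(q : ℝ) - w.2|))) ⊆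
        ((Ico u₁ (u₁ + L₁) ×ˢ Ico u₂ (u₂ + L₂)).filter (fun w : ℕ × ℕ =>
          w.1 * w.2 ≡ c [MOD p] ∧ Far (κ * f p) w.1 ∧ Far (κ * f p) w.2)) := by
      intro w hw
      rw [mem_filter, mem_filter] at hw
      obtain ⟨⟨_, b1⟩, ⟨b2, b3⟩, b4, b5⟩ := hw
      rw [mem_filter, mem_product, mem_Ico, mem_Ico]
      exact ⟨⟨b2, b4⟩, (ZMod.natCast_eq_natCast_iff _ _ _).1 b1, b3, b5⟩
    exact_mod_cast card_le_card this
  · obtain ⟨κ, hκ, hp⟩ := Pool.Agent.Q130.PV.powers ε h0 h1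
    obtain ⟨P₀, hP₀⟩ := Filter.eventually_atTop.1 hp
    refine ⟨κ, hκ, P₀, fun p hp hprime g b hb u₁ L₁ u₂ L₂ a1 a2 a3 => ?_⟩
    refine (hP₀ p hp hprime g b hb u₁ L₁ u₂ L₂ a1 a2 a3).trans ?_
    have : ((range (orderOf g)).filter
          (fun x => ((u₁ ≤ x ∧ x < u₁ + L₁) ∧
          ∀ q : ℕ, q.Prime → κ * Pool.Agent.W147.PS.ff p < |(q : ℝ) - x|) ∧
          ((u₂ ≤ (b * g ^ x).val ∧ (b * g ^ x).val < u₂ + L₂) ∧
          ∀ q : ℕ, q.Prime → κ * Pool.Agent.W147.PS.ff p < |(q : ℝ) - (b * g ^ x).val|))) ⊆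
        ((Ico u₁ (u₁ + L₁)).filter (fun x : ℕ => Far (κ * f p) x ∧
          (b * g ^ x).val ∈ Ico u₂ (u₂ + L₂) ∧ Far (κ * f p) (b * g ^ x).val)) := by
      intro x hx
      rw [mem_filter] at hx
      obtain ⟨_, ⟨b2, b3⟩, b4, b5⟩ := hx
      rw [mem_filter, mem_Ico, mem_Ico]
      exact ⟨b2, b3, b4, b5⟩
    exact_mod_cast card_le_card this

end Pool.Agent.Results.MP_3bc45c_nt.FourierUniformFamilies
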