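import Pool.Agent.Q120.DP.Final
import Pool.Agent.H295R3.Hoheisel

/-!
# Cramér's bound for randomly displaced primes is equivalent to Hoheisel's at the same scale

Every prime `p` is moved to `p + ξ p`, where the displacements `ξ p` are independent and `ξ p` is uniform on
`{0, …, K p - 1}`, `K` monotone with `p ^ ε ≤ K p ≤ p` and `K (2 p) ≤ C K p`.

* The largest gap up to `X` of the displaced primes is almost surely at least `c (log X) ^ 2`.
* It is almost surely `O((log X) ^ 2)` if and only if every interval `(x, x + K x]`, `x` large, contains at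
  least `c K x / log x` primes; otherwise gaps longer than `C (log x) ^ 2` exist for every `C` almost surely.
* For `K p ≥ p ^ (1 - δ)`, `δ` absolute, the condition holds (Hoheisel).
-/

set_option autoImplicit false

namespace Pool.Agent.Results.MP_3bc45c_nt.ScaleEquivalence

open MeasureTheory ProbabilityTheory Finset Filter

/-- The scales `K` of the displacements: positive, nondecreasing, `n ^ ε ≤ K n ≤ n` and
`K (2 n) ≤ C K n` for all large `n`, for some `ε > 0` and `C`. -/
structure Regular (K : ℕ → ℕ) : Prop where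
  pos : ∀ n, 0 < K n
  mono : Monotone K
  le : ∀ᶠ n : ℕ in atTop, K n ≤ n
  doubling : ∃ C : ℕ, ∀ᶠ n : ℕ in atTop, K (2 * n) ≤ C * K n
  large : ∃ ε : ℝ, 0 < ε ∧ ∀ᶠ n : ℕ in atTop, (n : ℝ) ^ ε ≤ K n

/-- The uniform distribution on `{0, …, k - 1}`, `k > 0`. -/
noncomputable def uniformBelow (k : ℕ) (hk : 0 < k) : Measure ℕ :=
  (PMF.uniformOfFinset (range k) (nonempty_range_iff.2 hk.ne')).toMeasure

/-- The law of a sequence `ω` of independent displacements, `ω n` uniform on `{0, …, K n - 1}`. -/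
noncomputable def law (K : ℕ → ℕ) (hK : ∀ n, 0 < K n) : Measure (ℕ → ℕ) :=
  Measure.infinitePi fun n => uniformBelow (K n) (hK n)

/-- The displaced primes `p + ω p`. -/
def displacedPrimes (ω : ℕ → ℕ) : Set ℕ := {m | ∃ p : ℕ, p.Prime ∧ m = p + ω p}

/-- Every interval `(x, x + C (log x) ^ 2]`, `x` large, meets `S`. -/
def GapsBounded (C : ℝ) (S : Set ℕ) : Prop :=
  ∀ᶠ x : ℕ in atTop, ∃ m ∈ S, x < m ∧ (m : ℝ) ≤ x + C * Real.log x ^ 2

/-- `(0, X]` contains, for every large `X`, an interval `(x, x + c (log X) ^ 2]` free of `S`. -/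
def LargeGaps (c : ℝ) (S : Set ℕ) : Prop :=
  ∀ᶠ X : ℕ in atTop, ∃ x : ℕ, (x : ℝ) + c * Real.log X ^ 2 ≤ X ∧
    ∀ m ∈ S, ¬ (x < m ∧ (m : ℝ) ≤ x + c * Real.log X ^ 2)

/-- The primes have at least the expected order of magnitude in all intervals `(x, x + K x]`. -/
def ShortIntervals (K : ℕ → ℕ) : Prop :=
  ∃ c : ℝ, 0 < c ∧ ∀ᶠ x : ℕ in atTop,
    c * K x / Real.log x ≤ (((Ioc x (x + K x)).filter Nat.Prime).card : ℝ)

instance (k : ℕ) (hk : 0 < k) : IsProbabilityMeasure (uniformBelow k hk) := by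
  unfold uniformBelow; infer_instance

instance (K : ℕ → ℕ) (hK : ∀ n, 0 < K n) : IsProbabilityMeasure (law K hK) := by
  unfold law; infer_instance

theorem displacement (K : ℕ → ℕ) (hK : ∀ n, 0 < K n) :
    Q120.DP.Displacement (law K hK) K (fun n ω => ω n) := by
  refine ⟨fun n => measurable_pi_apply n, ?_, ?_⟩
  · exact iIndepFun_infinitePi (P := fun n => uniformBelow (K n) (hK n)) (X := fun _ x => x)
      (fun _ => measurable_id)
  · intro n k
    have h1 : law K hK {ω : ℕ → ℕ | ω n = k} = uniformBelow (K n) (hK n) {k} := by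
      have h2 := (measurePreserving_eval_infinitePi (fun n => uniformBelow (K n) (hK n)) n)
      have h3 := h2.measure_preimage (s := {k}) (MeasurableSet.singleton k).nullMeasurableSet
      exact h3
    rw [Measure.real, h1, uniformBelow, PMF.toMeasure_apply_singleton _ _ (MeasurableSet.singleton k),
      PMF.uniformOfFinset_apply]
    simp only [mem_range, card_range]
    split_ifs with h4
    · rw [ENNReal.toReal_inv, ENNReal.toReal_natCast, one_div]
    · simp

/-- **Cramér's bound for the displaced primes is equivalent to a bound of Hoheisel's type for the primes in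
intervals of length `K`.** -/
theorem result :
    (∀ K : ℕ → ℕ, ∀ hR : Regular K,
      -- lower bound: the order `(log X) ^ 2` is always attained
      (∃ c : ℝ, 0 < c ∧ ∀ᵐ ω ∂law K hR.pos, LargeGaps c (displacedPrimes ω)) ∧
      -- the upper bound holds if and only if the primes are well distributed in intervals of length `K`
      ((∀ᵐ ω ∂law K hR.pos, ∃ C : ℝ, GapsBounded C (displacedPrimes ω)) ↔ ShortIntervals K) ∧
      (ShortIntervals K → ∃ C : ℝ, ∀ᵐ ω ∂law K hR.pos, GapsBounded C (displacedPrimes ω)) ∧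
      -- otherwise it fails almost surely
      (¬ ShortIntervals K → ∀ᵐ ω ∂law K hR.pos, ∀ C : ℝ, ¬ GapsBounded C (displacedPrimes ω))) ∧
    -- the condition is satisfied for `K n ≥ n ^ (1 - δ)`
    (∃ δ : ℝ, 0 < δ ∧ δ < 1 ∧ ∀ K : ℕ → ℕ, (∀ᶠ n : ℕ in atTop, K n ≤ n) →
      (∀ᶠ n : ℕ in atTop, (n : ℝ) ^ (1 - δ) ≤ K n) → ShortIntervals K) := by
  refine ⟨?_, ?_⟩
  · intro K hR
    have hR' : Q120.DP.Regular K := ⟨hR.pos, hR.mono, hR.le, hR.doubling, hR.large⟩
    have hD := displacement K hR.pos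
    refine ⟨Q120.DP.largeGaps hD hR', Q120.DP.main_iff hD hR', ?_, ?_⟩
    · rintro ⟨c, hc, hS⟩
      exact Q120.DP.gapsBounded_of' hD hR' hc hS
    · intro hnot
      filter_upwards [Q120.DP.longer_gaps hD hR' hnot] with ω hω C hC
      obtain ⟨x, hx1, m, hm, hm1⟩ := ((hω C).and_eventually hC).exists
      exact hx1 m hm hm1
  · obtain ⟨δ, η, hδ, hδ1, hη, X₀, _, h⟩ := Pool.Agent.H295R3.D.hoheisel
    refine ⟨δ, hδ, hδ1, ?_⟩
    intro K hK1 hK2
    refine ⟨η, hη, ?_⟩
    filter_upwards [hK1, hK2, eventually_ge_atTop X₀] with x h1 h2 h3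
    exact h x (K x) h3 h2 h1

end Pool.Agent.Results.MP_3bc45c_nt.ScaleEquivalence
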