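import Pool.Agent.Q152.Shifts
import Pool.Agent.Q152.ShiftsPrimes
import Pool.Agent.H295R3.Hoheisel

/-!
# Cramér's bound for the union of `r ≥ A log N` typical translates of the primes

For a typical `r`-tuple `b` of integers in `[1, N]` the largest gap in `[1, N]` of the union of the translates
`P - b i` of the set `P` of the primes is at most `(1 + ε) (log N) ^ 2 / r`, if `r ≥ A log N` (for `r = 1` this
would be Cramér's conjecture, with Cramér's constant). The number of the primes is as expected in ALL intervals of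
length `K (log N) ^ 2 / r`, and lower bounds of the right order of magnitude hold for shifts from the short
interval `[1, N ^ (1 - δ)]`.

Method: exponential moments along the tuple; the first moments of the number of the primes in a translate of an
interval come from the prime number theorem, and from the theorem of Hoheisel in the last part; the second moments
from the sieve upper bound for prime pairs.
-/

set_option autoImplicit false

namespace Pool.Agent.Results.MP_3bc45c_nt.TypicalSumsets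

open Finset Filter Pool.Agent.Q152.Shifts Pool.Agent.Q152.ShiftsPrimes

open Classical in
/-- The number of the tuples of length `r` of elements of `{1, ..., x}` with the property `E`. -/
noncomputable def tuples (x r : ℕ) (E : (Fin r → ℕ) → Prop) : ℝ :=
  (((Fintype.piFinset fun _ : Fin r => Icc 1 x).filter E).card : ℝ)

/-- The total number of the primes in the `r` intervals `(a + b i, a + b i + y]`. -/
def total (r : ℕ) (b : Fin r → ℕ) (y a : ℕ) : ℕ :=
  ∑ i, ((Ioc (a + b i) (a + b i + y)).filter Nat.Prime).card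

theorem total_eq (r : ℕ) (b : Fin r → ℕ) (y a : ℕ) :
    (total r b y a : ℝ) = ∑ i, (cnt (a + b i) y : ℝ) := by
  unfold total cnt
  push_cast
  rfl

theorem tuples_eq (x r : ℕ) (E : (Fin r → ℕ) → Prop) : tuples x r E = tup (Icc 1 x) r E := rfl

theorem tup_zero {Ω : Finset ℕ} {r : ℕ} {E : (Fin r → ℕ) → Prop} (h : ∀ v, ¬ E v) :
    tup Ω r E = 0 := by
  classical
  unfold tup
  rw [Nat.cast_eq_zero, card_eq_zero, filter_eq_empty_iff]
  intro v _ hv
  exact h v hv

/-- The lower tail. -/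
theorem lowerA {H y a r : ℕ} {η c₁ c₂ L ε E K : ℝ} (hη : 0 < η) (hc₁ : 0 < c₁) (hc₂ : 0 < c₂)
    (hL : 0 < L) (hε : 0 < ε) (hy : 0 < y)
    (hK : 2 * (c₁ + c₂) * E ≤ K * (ε ^ 2 * η ^ 2))
    (h1 : η * y * H ≤ L * ∑ b ∈ Icc 1 H, (cnt (a + b) y : ℝ))
    (h2 : L ^ 2 * ∑ b ∈ Icc 1 H, (cnt (a + b) y : ℝ) ^ 2 ≤ H * (c₁ * y * L + c₂ * y ^ 2))
    (hr1 : K * L ≤ r) (hr2 : K * L ^ 2 ≤ r * y) :
    tup (Icc 1 H) r (fun v => (∑ i, (cnt (a + v i) y : ℝ)) * L ≤ (1 - ε) * (η * (r * y))) ≤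
      Real.exp (-(E * L)) * (H : ℝ) ^ r := by
  have hy0 : (0 : ℝ) < y := by exact_mod_cast hy
  obtain ⟨z, hz⟩ : ∃ z : ℝ, z = y / L := ⟨_, rfl⟩
  have hz0 : 0 < z := by rw [hz]; positivity
  have hyz : (y : ℝ) = z * L := by rw [hz]; field_simp
  have hcard : ((Icc 1 H).card : ℝ) = H := by rw [Nat.card_Icc, Nat.add_sub_cancel]
  have hS : 0 < c₁ * z + c₂ * z ^ 2 := by positivity
  have key := lower_tail (Ω := Icc 1 H) (X := fun b => (cnt (a + b) y : ℝ))
    (fun b _ => Nat.cast_nonneg _) (μ := η * z) (S := c₁ * z + c₂ * z ^ 2) (ε := ε)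
    (by positivity) hS hε.le
    (by
      rw [hcard]
      have h3 : L * (η * z * H) ≤ L * ∑ b ∈ Icc 1 H, (cnt (a + b) y : ℝ) := by
        refine le_trans (le_of_eq ?_) h1
        rw [hyz]; ring
      exact le_of_mul_le_mul_left h3 hL)
    (by
      rw [hcard]
      have h3 : L ^ 2 * ∑ b ∈ Icc 1 H, (cnt (a + b) y : ℝ) ^ 2 ≤
          L ^ 2 * ((c₁ * z + c₂ * z ^ 2) * H) := by
        refine h2.trans (le_of_eq ?_)
        rw [hyz]; ring
      exact le_of_mul_le_mul_left h3 (by positivity)) r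
  rw [hcard] at key
  refine (tup_mono ?_).trans (key.trans ?_)
  · intro v _ hv
    have h3 : (∑ i, (cnt (a + v i) y : ℝ)) * L ≤ ((1 - ε) * (r * (η * z))) * L := by
      refine hv.trans (le_of_eq ?_)
      rw [hyz]; ring
    exact le_of_mul_le_mul_right h3 hL
  · apply mul_le_mul_of_nonneg_right _ (by positivity)
    apply Real.exp_le_exp.2
    rw [neg_le_neg_iff, div_mul_eq_mul_div, le_div_iff₀ (by positivity)]
    have hzr : K * L ≤ r * z := by
      have h3 : (K * L) * L ≤ (r * z) * L := by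
        rw [hyz] at hr2
        linarith [hr2]
      exact le_of_mul_le_mul_right h3 hL
    have h4 : c₁ * (K * L) + c₂ * z * (K * L) ≤ (c₁ + c₂) * (r * z) := by
      have h5 := mul_le_mul_of_nonneg_left hzr hc₁.le
      have h6 := mul_le_mul_of_nonneg_left hr1 (by positivity : 0 ≤ c₂ * z)
      nlinarith
    have h7 : 2 * (c₁ + c₂) * E * (L * (c₁ + c₂ * z)) ≤
        K * (ε ^ 2 * η ^ 2) * (L * (c₁ + c₂ * z)) :=
      mul_le_mul_of_nonneg_right hK (by positivity)
    have h8 : ε ^ 2 * η ^ 2 * (c₁ * (K * L) + c₂ * z * (K * L)) ≤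
        ε ^ 2 * η ^ 2 * ((c₁ + c₂) * (r * z)) := mul_le_mul_of_nonneg_left h4 (by positivity)
    have h9 : (c₁ + c₂) * (2 * E * (L * (c₁ + c₂ * z))) ≤
        (c₁ + c₂) * (ε ^ 2 * η ^ 2 * (r * z)) := by nlinarith
    have h10 := le_of_mul_le_mul_left h9 (by positivity)
    have h11 := mul_le_mul_of_nonneg_right h10 hz0.le
    nlinarith

/-- The upper tail. -/
theorem upperA {H y a r : ℕ} {η c₁ c₂ L ε E K B : ℝ} (hη : 0 < η) (hc₁ : 0 < c₁) (hc₂ : 0 < c₂)
    (hL : 0 < L) (hε : 0 < ε) (hB : 0 < B) (hy : 2 ≤ y) (hyL : Real.log y ≤ L)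
    (hK : 4 * (c₁ + c₂) * E ≤ K * (ε ^ 2 * η ^ 2)) (hK2 : 2 * B * E ≤ K * (ε * η)) (hE : 0 ≤ E)
    (hBT : ∀ b ∈ Icc 1 H, (cnt (a + b) y : ℝ) ≤ B * y / Real.log y)
    (h1 : L * ∑ b ∈ Icc 1 H, (cnt (a + b) y : ℝ) ≤ η * y * H)
    (h2 : L ^ 2 * ∑ b ∈ Icc 1 H, (cnt (a + b) y : ℝ) ^ 2 ≤ H * (c₁ * y * L + c₂ * y ^ 2))
    (hr2 : K * L ^ 2 ≤ r * Real.log y) :
    tup (Icc 1 H) r (fun v => (1 + ε) * (η * (r * y)) ≤ (∑ i, (cnt (a + v i) y : ℝ)) * L) ≤
      Real.exp (-(E * L)) * (H : ℝ) ^ r := by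
  have hy0 : (0 : ℝ) < y := by exact_mod_cast (by omega : 0 < y)
  have hly : 0 < Real.log y := Real.log_pos (by exact_mod_cast (by omega : 1 < y))
  obtain ⟨z, hz⟩ : ∃ z : ℝ, z = y / L := ⟨_, rfl⟩
  have hz0 : 0 < z := by rw [hz]; positivity
  have hyz : (y : ℝ) = z * L := by rw [hz]; field_simp
  have hcard : ((Icc 1 H).card : ℝ) = H := by rw [Nat.card_Icc, Nat.add_sub_cancel]
  obtain ⟨S, hSd⟩ : ∃ S : ℝ, S = c₁ * z + c₂ * z ^ 2 := ⟨_, rfl⟩
  have hS : 0 < S := by rw [hSd]; positivity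
  have hr0 : (0 : ℝ) ≤ r := Nat.cast_nonneg r
  obtain ⟨t, ht⟩ : ∃ t : ℝ, t = min (Real.log y / (B * y)) (ε * (η * z) / (2 * S)) := ⟨_, rfl⟩
  have ht0 : 0 ≤ t := by rw [ht]; positivity
  have ht1 : t ≤ Real.log y / (B * y) := by rw [ht]; exact min_le_left _ _
  have ht2 : t ≤ ε * (η * z) / (2 * S) := by rw [ht]; exact min_le_right _ _
  have key := upper_tail (Ω := Icc 1 H) (X := fun b => (cnt (a + b) y : ℝ))
    (fun b _ => Nat.cast_nonneg _) (M := B * y / Real.log y) (μ := η * z) (S := S) (ε := ε) (t := t)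
    hBT ht0
    (by
      calc t * (B * y / Real.log y) ≤ Real.log y / (B * y) * (B * y / Real.log y) :=
            mul_le_mul_of_nonneg_right ht1 (by positivity)
        _ = 1 := by field_simp)
    (by
      rw [le_div_iff₀ (by positivity)] at ht2
      linarith)
    (by
      rw [hcard]
      have h3 : L * ∑ b ∈ Icc 1 H, (cnt (a + b) y : ℝ) ≤ L * (η * z * H) := by
        refine h1.trans (le_of_eq ?_)
        rw [hyz]; ring
      exact le_of_mul_le_mul_left h3 hL)
    (by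
      rw [hcard, hSd]
      have h3 : L ^ 2 * ∑ b ∈ Icc 1 H, (cnt (a + b) y : ℝ) ^ 2 ≤
          L ^ 2 * ((c₁ * z + c₂ * z ^ 2) * H) := by
        refine h2.trans (le_of_eq ?_)
        rw [hyz]; ring
      exact le_of_mul_le_mul_left h3 (by positivity)) r
  rw [hcard] at key
  refine (tup_mono ?_).trans (key.trans ?_)
  · intro v _ hv
    have h3 : ((1 + ε) * (r * (η * z))) * L ≤ (∑ i, (cnt (a + v i) y : ℝ)) * L := by
      refine le_trans (le_of_eq ?_) hv
      rw [hyz]; ring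
    exact le_of_mul_le_mul_right h3 hL
  · apply mul_le_mul_of_nonneg_right _ (by positivity)
    apply Real.exp_le_exp.2
    rw [neg_le_neg_iff]
    -- consequences of the assumption on `r`
    have hK0 : 0 ≤ K := by
      have h3 : 0 ≤ K * (ε * η) := le_trans (by positivity) hK2
      exact nonneg_of_mul_nonneg_left h3 (by positivity)
    have hr1 : K * L ≤ r := by
      have h3 : K * L * L ≤ r * L := by
        have := mul_le_mul_of_nonneg_left hyL hr0
        nlinarith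
      exact le_of_mul_le_mul_right h3 hL
    have hzr : K * L ≤ r * z := by
      have h3 : (K * L) * L ≤ (r * z) * L := by
        have h4 : Real.log y ≤ y := (Real.log_le_self hy0.le)
        have := mul_le_mul_of_nonneg_left h4 hr0
        rw [hyz] at this
        nlinarith
      exact le_of_mul_le_mul_right h3 hL
    rcases min_choice (Real.log y / (B * y)) (ε * (η * z) / (2 * S)) with h | h
    · rw [← ht] at h
      rw [h]
      have h3 : Real.log y / (B * y) * ε * (η * z) / 2 * r = ε * η * (r * Real.log y) / (2 * B * L) := by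
        rw [hyz]
        field_simp
      rw [h3, le_div_iff₀ (by positivity)]
      have h4 := mul_le_mul_of_nonneg_left hr2 (by positivity : 0 ≤ ε * η)
      have h5 := mul_le_mul_of_nonneg_right hK2 (by positivity : 0 ≤ L ^ 2)
      nlinarith
    · rw [← ht] at h
      rw [h]
      have h3 : ε * (η * z) / (2 * S) * ε * (η * z) / 2 * r = ε ^ 2 * η ^ 2 * z ^ 2 * r / (4 * S) := by
        field_simp
        ring
      rw [h3, le_div_iff₀ (by positivity), hSd]
      have h4 : c₁ * (K * L) + c₂ * z * (K * L) ≤ (c₁ + c₂) * (r * z) := by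
        have h5 := mul_le_mul_of_nonneg_left hzr hc₁.le
        have h6 := mul_le_mul_of_nonneg_left hr1 (by positivity : 0 ≤ c₂ * z)
        nlinarith
      have h7 : 4 * (c₁ + c₂) * E * (L * (c₁ + c₂ * z)) ≤
          K * (ε ^ 2 * η ^ 2) * (L * (c₁ + c₂ * z)) :=
        mul_le_mul_of_nonneg_right hK (by positivity)
      have h8 : ε ^ 2 * η ^ 2 * (c₁ * (K * L) + c₂ * z * (K * L)) ≤
          ε ^ 2 * η ^ 2 * ((c₁ + c₂) * (r * z)) := mul_le_mul_of_nonneg_left h4 (by positivity)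
      have h9 : (c₁ + c₂) * (4 * E * (L * (c₁ + c₂ * z))) ≤
          (c₁ + c₂) * (ε ^ 2 * η ^ 2 * (r * z)) := by nlinarith
      have h10 := le_of_mul_le_mul_left h9 (by positivity)
      have h11 := mul_le_mul_of_nonneg_right h10 hz0.le
      nlinarith

theorem tendsto_log_nat : Tendsto (fun n : ℕ => Real.log (n : ℝ)) atTop atTop :=
  Real.tendsto_log_atTop.comp tendsto_natCast_atTop_atTop

/-- The intervals without elements of the union. -/
theorem part1 (U ε : ℝ) (hU : 0 < U) (hε : 0 < ε) : ∃ A : ℝ, ∀ᶠ N : ℕ in atTop, ∀ r y : ℕ,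
    A * Real.log N ≤ r → (1 + U + ε) * Real.log N ^ 2 ≤ r * y →
    tuples N r (fun b => ¬ ∀ a ≤ N, ∃ i, ∃ p : ℕ, p.Prime ∧ a + b i < p ∧ p ≤ a + b i + y) ≤
      (N : ℝ) ^ r / (N : ℝ) ^ U := by
  obtain ⟨C, hC, u0, hsec⟩ := second
  obtain ⟨c0, hc0⟩ : ∃ c0 : ℝ, c0 = 1 + U + ε := ⟨_, rfl⟩
  have hc1 : 1 < c0 := by rw [hc0]; linarith
  obtain ⟨e, he⟩ : ∃ e : ℝ, e = ε / (4 * c0) := ⟨_, rfl⟩
  have he0 : 0 < e := by rw [he]; positivity
  have hec : 2 * e * c0 = ε / 2 := by rw [he]; field_simp; ring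
  have he1 : e ≤ 1 / 4 := by
    rw [he, div_le_iff₀ (by positivity)]
    linarith
  obtain ⟨N₁, hN₁3, hN₁⟩ := cnt_unif e he0
  refine ⟨c0 * C / e, ?_⟩
  filter_upwards [eventually_ge_atTop N₁, eventually_ge_atTop u0, eventually_ge_atTop 3,
    tendsto_log_nat.eventually_ge_atTop (C / e + 2 * Real.log 2 / ε + 1)] with N hN1 hNu hN3 hNL r y hr hry
  obtain ⟨L, hL⟩ : ∃ L, L = Real.log N := ⟨_, rfl⟩
  rw [← hL] at hNL hr hry
  have hl2 : 0 < Real.log 2 := Real.log_pos (by norm_num)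
  have hNL1 : C / e ≤ L := by
    have : 0 < 2 * Real.log 2 / ε := by positivity
    linarith
  have hNL2 : 2 * Real.log 2 / ε ≤ L := by
    have : 0 < C / e := by positivity
    linarith
  have hL0 : 0 < L := by
    have : 0 < C / e := by positivity
    linarith
  have hN0 : (0 : ℝ) < N := by exact_mod_cast (by omega : 0 < N)
  have hr0 : (0 : ℝ) < r := lt_of_lt_of_le (by positivity) hr
  rw [← hc0] at hry
  -- the length used
  obtain ⟨y0, hy0⟩ : ∃ y0 : ℕ, y0 = ⌈c0 * L ^ 2 / r⌉₊ := ⟨_, rfl⟩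
  have hy1 : c0 * L ^ 2 ≤ r * y0 := by
    have := Nat.le_ceil (c0 * L ^ 2 / r)
    rw [← hy0, div_le_iff₀ hr0] at this
    linarith
  have hy2 : y0 ≤ y := by
    rw [hy0]
    apply Nat.ceil_le.2
    rw [div_le_iff₀ hr0]
    linarith
  have hyp : 0 < y0 := by
    rw [hy0]
    apply Nat.ceil_pos.2
    positivity
  have hyr : (0 : ℝ) < y0 := by exact_mod_cast hyp
  have hy3 : (y0 : ℝ) ≤ 2 * e / C * L := by
    have h1 : (y0 : ℝ) < c0 * L ^ 2 / r + 1 := by
      rw [hy0]
      exact Nat.ceil_lt_add_one (by positivity)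
    have h2 : c0 * L ^ 2 / r ≤ e / C * L := by
      rw [div_le_iff₀ hr0]
      have h3 : e / C * L * (c0 * C / e * L) ≤ e / C * L * r :=
        mul_le_mul_of_nonneg_left hr (by positivity)
      have h4 : e / C * L * (c0 * C / e * L) = c0 * L ^ 2 := by
        field_simp
      linarith
    have h5 : 1 ≤ e / C * L := by
      rw [div_le_iff₀ he0] at hNL1
      rw [div_mul_eq_mul_div, le_div_iff₀ (by linarith)]
      linarith
    have h6 : 2 * e / C * L = e / C * L + e / C * L := by ring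
    linarith
  have hyN : y0 ≤ N := by
    have h1 : (y0 : ℝ) ≤ N := by
      have h2 : 2 * e / C ≤ 1 := by
        rw [div_le_iff₀ (by linarith)]
        linarith
      have h3 : L ≤ N := by
        rw [hL]
        exact Real.log_le_self hN0.le
      have h4 := mul_le_mul_of_nonneg_right h2 hL0.le
      linarith
    exact_mod_cast h1
  have hcard : ((Icc 1 N).card : ℝ) = N := by rw [Nat.card_Icc, Nat.add_sub_cancel]
  obtain ⟨p, hp⟩ : ∃ p : ℝ, p = (1 - e) * (y0 / L) - C * (y0 / L) ^ 2 / 2 := ⟨_, rfl⟩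
  have hpr : (1 + U + ε / 2) * L ≤ p * r := by
    have h1 : C * (y0 / L) / 2 ≤ e := by
      have h2 : (y0 : ℝ) / L ≤ 2 * e / C := by
        rw [div_le_iff₀ hL0]
        exact hy3
      have h3 := mul_le_mul_of_nonneg_left h2 (by linarith : 0 ≤ C)
      have h4 : C * (2 * e / C) = 2 * e := by field_simp
      linarith
    have h2 : (1 - 2 * e) * (y0 / L) ≤ p := by
      rw [hp]
      have h3 : 0 < (y0 : ℝ) / L := by positivity
      have h4 := mul_le_mul_of_nonneg_right h1 h3.le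
      nlinarith
    have h3 : c0 * L ≤ y0 / L * r := by
      rw [div_mul_eq_mul_div, le_div_iff₀ hL0]
      nlinarith
    calc (1 + U + ε / 2) * L = (1 - 2 * e) * (c0 * L) := by
          have : (1 - 2 * e) * c0 = 1 + U + ε / 2 := by
            have h4 : (1 - 2 * e) * c0 = c0 - 2 * e * c0 := by ring
            rw [h4, hec, hc0]; ring
          rw [← mul_assoc, this]
      _ ≤ (1 - 2 * e) * (y0 / L * r) := mul_le_mul_of_nonneg_left h3 (by linarith)
      _ = (1 - 2 * e) * (y0 / L) * r := by ring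
      _ ≤ p * r := mul_le_mul_of_nonneg_right h2 hr0.le
  have each : ∀ a ∈ range (N + 1), tup (Icc 1 N) r (fun v => ∀ i, cnt (a + v i) y0 = 0) ≤
      Real.exp (-((1 + U + ε / 2) * L)) * (N : ℝ) ^ r := by
    intro a ha
    rw [mem_range] at ha
    have h1 := hsec a y0 N hNu
    have h2 : (1 - e) * y0 * N / L ≤ ∑ b ∈ Icc 1 N, (cnt (a + b) y0 : ℝ) := by
      rw [first, div_le_iff₀ hL0, sum_mul]
      calc (1 - e) * y0 * N = ∑ _j ∈ Icc 1 y0, (1 - e) * (N : ℝ) := by
            rw [sum_const, Nat.card_Icc, Nat.add_sub_cancel, nsmul_eq_mul]; ring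
        _ ≤ _ := by
            apply sum_le_sum
            intro j hj
            rw [mem_Icc] at hj
            have h3 := hN₁ N hN1 (a + j) (by omega)
            rw [abs_le, ← hL] at h3
            linarith
    have h3 := void (Ω := Icc 1 N) (X := fun b => cnt (a + b) y0) (p := p) (by
      rw [hcard, sum_add_distrib, sum_sub_distrib, ← sum_div, sum_sub_distrib, sum_const,
        nsmul_eq_mul, hcard, mul_one]
      have h4 : C * (y0 : ℝ) ^ 2 * N / Real.log N ^ 2 = C * (y0 / L) ^ 2 * N := by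
        rw [← hL]; field_simp
      have h5 : (1 - e) * y0 * N / L = (1 - e) * (y0 / L) * N := by field_simp
      rw [h4] at h1
      rw [h5] at h2
      rw [hp]
      nlinarith) r
    rw [hcard] at h3
    refine h3.trans ?_
    apply mul_le_mul_of_nonneg_right _ (by positivity)
    apply Real.exp_le_exp.2
    linarith
  have hunion := tup_union (range (N + 1)) (fun a v => ∀ i, cnt (a + v i) y0 = 0) each
  rw [tuples_eq]
  refine (tup_mono ?_).trans (hunion.trans ?_)
  · intro v _ hv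
    push Not at hv
    obtain ⟨a, ha, h⟩ := hv
    refine ⟨a, mem_range.2 (by omega), fun i => ?_⟩
    unfold cnt
    rw [card_eq_zero, filter_eq_empty_iff]
    intro q hq hqp
    rw [mem_Ioc] at hq
    have := h i q hqp hq.1
    omega
  · rw [card_range]
    have hNr : (N : ℝ) = Real.exp L := by rw [hL, Real.exp_log hN0]
    have hNU : (N : ℝ) ^ U = Real.exp (U * L) := by
      rw [Real.rpow_def_of_pos hN0, hL]
      congr 1; ring
    have hdiv : (N : ℝ) ^ r / Real.exp (U * L) = Real.exp (-(U * L)) * (N : ℝ) ^ r := by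
      rw [Real.exp_neg]; field_simp
    rw [hNU, hdiv, ← mul_assoc]
    apply mul_le_mul_of_nonneg_right _ (by positivity)
    have h1 : ((N + 1 : ℕ) : ℝ) ≤ 2 * Real.exp L := by
      rw [← hNr]
      push_cast
      have : (1 : ℝ) ≤ N := by exact_mod_cast (by omega : 1 ≤ N)
      linarith
    have h2 : (2 : ℝ) ≤ Real.exp (ε / 2 * L) := by
      rw [div_le_iff₀ hε] at hNL2
      have h3 : Real.exp (Real.log 2) ≤ Real.exp (ε / 2 * L) := Real.exp_le_exp.2 (by linarith)
      rwa [Real.exp_log (by norm_num : (0 : ℝ) < 2)] at h3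
    calc ((N + 1 : ℕ) : ℝ) * Real.exp (-((1 + U + ε / 2) * L)) ≤
        (Real.exp (ε / 2 * L) * Real.exp L) * Real.exp (-((1 + U + ε / 2) * L)) := by
          apply mul_le_mul_of_nonneg_right _ (Real.exp_pos _).le
          exact h1.trans (mul_le_mul_of_nonneg_right h2 (Real.exp_pos _).le)
      _ = Real.exp (-(U * L)) := by
          rw [← Real.exp_add, ← Real.exp_add]
          congr 1; ring

/-- The final step: a union bound over the pairs `(a, y)`. -/
theorem assemble {H N r : ℕ} {U L : ℝ} (hN0 : 2 ≤ N) (hL : L = Real.log N) (hL1 : Real.log 4 ≤ L)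
    {E : (Fin r → ℕ) → Prop} (F : ℕ × ℕ → (Fin r → ℕ) → Prop)
    (hEF : ∀ v, E v → ∃ x ∈ range (N + 1) ×ˢ Icc 1 N, F x v)
    (hF : ∀ x ∈ range (N + 1) ×ˢ Icc 1 N, tup (Icc 1 H) r (F x) ≤
      2 * (Real.exp (-((U + 3) * L)) * (H : ℝ) ^ r)) :
    tup (Icc 1 H) r E ≤ (H : ℝ) ^ r / (N : ℝ) ^ U := by
  have hN : (0 : ℝ) < N := by exact_mod_cast (by omega : 0 < N)
  refine (tup_mono fun v _ hv => hEF v hv).trans ((tup_union _ F hF).trans ?_)
  rw [card_product, card_range, Nat.card_Icc, Nat.add_sub_cancel]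
  have hNr : (N : ℝ) = Real.exp L := by rw [hL, Real.exp_log hN]
  have hNU : (N : ℝ) ^ U = Real.exp (U * L) := by
    rw [Real.rpow_def_of_pos hN, hL]
    congr 1; ring
  have hdiv : (H : ℝ) ^ r / Real.exp (U * L) = Real.exp (-(U * L)) * (H : ℝ) ^ r := by
    rw [Real.exp_neg]; field_simp
  rw [hNU, hdiv]
  have h1 : (((N + 1) * N : ℕ) : ℝ) ≤ 2 * (Real.exp L * Real.exp L) := by
    rw [← hNr]
    push_cast
    have : (1 : ℝ) ≤ N := by exact_mod_cast (by omega : 1 ≤ N)
    nlinarith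
  have h2 : (4 : ℝ) ≤ Real.exp L := by
    rw [← Real.exp_log (by norm_num : (0 : ℝ) < 4)]
    exact Real.exp_le_exp.2 hL1
  have h0 : 0 ≤ Real.exp L := (Real.exp_pos L).le
  calc (((N + 1) * N : ℕ) : ℝ) * (2 * (Real.exp (-((U + 3) * L)) * (H : ℝ) ^ r)) ≤
      (2 * (Real.exp L * Real.exp L)) * (2 * (Real.exp (-((U + 3) * L)) * (H : ℝ) ^ r)) :=
        mul_le_mul_of_nonneg_right h1 (by positivity)
    _ = 4 * (Real.exp L * Real.exp L * Real.exp (-((U + 3) * L))) * (H : ℝ) ^ r := by ring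
    _ ≤ Real.exp L * (Real.exp L * Real.exp L * Real.exp (-((U + 3) * L))) * (H : ℝ) ^ r := by
        apply mul_le_mul_of_nonneg_right _ (by positivity)
        exact mul_le_mul_of_nonneg_right h2 (by positivity)
    _ = Real.exp (-(U * L)) * (H : ℝ) ^ r := by
        rw [← Real.exp_add, ← Real.exp_add, ← Real.exp_add]
        congr 2; ring

/-- The asymptotic formula in all intervals. -/
theorem part2 (U ε : ℝ) (hU : 0 < U) (hε : 0 < ε) (hε1 : ε ≤ 1) : ∃ K : ℝ, ∀ᶠ N : ℕ in atTop,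
    ∀ r : ℕ, K * Real.log N ≤ r →
    tuples N r (fun b => ¬ ∀ a y : ℕ, a ≤ N → y ≤ N →
      (K * Real.log N ^ 2 ≤ r * y → (1 - ε) * (r * y) ≤ total r b y a * Real.log N) ∧
      (K * Real.log N ^ 2 ≤ r * Real.log y → total r b y a * Real.log N ≤ (1 + ε) * (r * y))) ≤
      (N : ℝ) ^ r / (N : ℝ) ^ U := by
  obtain ⟨C, hC, u0, hsec⟩ := second
  obtain ⟨B, hB, hBT⟩ := cnt_le
  obtain ⟨e, he⟩ : ∃ e : ℝ, e = ε / 3 := ⟨_, rfl⟩
  have he0 : 0 < e := by rw [he]; positivity
  have he1 : e ≤ 1 / 3 := by rw [he]; linarith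
  have hεe : ε = 3 * e := by rw [he]; ring
  obtain ⟨N₁, hN₁3, hN₁⟩ := cnt_unif e he0
  obtain ⟨K, hKd⟩ : ∃ K : ℝ, K = 16 * (2 + C) * (U + 3) / e ^ 2 + 2 * B * (U + 3) / e + 1 := ⟨_, rfl⟩
  have hK0 : 0 < K := by rw [hKd]; positivity
  have hK1 : 16 * (2 + C) * (U + 3) ≤ K * e ^ 2 := by
    have h1 : 16 * (2 + C) * (U + 3) / e ^ 2 ≤ K := by
      rw [hKd]
      have : 0 ≤ 2 * B * (U + 3) / e := by positivity
      linarith
    rwa [div_le_iff₀ (by positivity)] at h1
  have hK2 : 2 * B * (U + 3) ≤ K * e := by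
    have h1 : 2 * B * (U + 3) / e ≤ K := by
      rw [hKd]
      have : 0 ≤ 16 * (2 + C) * (U + 3) / e ^ 2 := by positivity
      linarith
    rwa [div_le_iff₀ he0] at h1
  refine ⟨K, ?_⟩
  filter_upwards [eventually_ge_atTop N₁, eventually_ge_atTop u0, eventually_ge_atTop 3,
    tendsto_log_nat.eventually_ge_atTop (Real.log 4)] with N hN1 hNu hN3 hNL r hr
  obtain ⟨L, hL⟩ : ∃ L, L = Real.log N := ⟨_, rfl⟩
  rw [← hL] at hNL hr
  rw [← hL]
  have hL0 : 0 < L := lt_of_lt_of_le (Real.log_pos (by norm_num)) hNL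
  have hN0 : (0 : ℝ) < N := by exact_mod_cast (by omega : 0 < N)
  -- the first two moments
  have hmom : ∀ a y : ℕ, a ≤ N → y ≤ N →
      (1 - e) * y * N ≤ L * ∑ b ∈ Icc 1 N, (cnt (a + b) y : ℝ) ∧
      L * ∑ b ∈ Icc 1 N, (cnt (a + b) y : ℝ) ≤ (1 + e) * y * N ∧
      L ^ 2 * ∑ b ∈ Icc 1 N, (cnt (a + b) y : ℝ) ^ 2 ≤ N * (2 * y * L + C * y ^ 2) := by
    intro a y ha hy
    have h1 := hsec a y N hNu
    have h3 : ∀ j ∈ Icc 1 y, |(cnt (a + j) N : ℝ) * L - N| ≤ e * N := by
      intro j hj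
      rw [mem_Icc] at hj
      have h3 := hN₁ N hN1 (a + j) (by omega)
      rwa [← hL] at h3
    have h4 : (1 - e) * y * N ≤ L * ∑ b ∈ Icc 1 N, (cnt (a + b) y : ℝ) := by
      rw [first, mul_sum]
      calc (1 - e) * y * N = ∑ _j ∈ Icc 1 y, (1 - e) * (N : ℝ) := by
            rw [sum_const, Nat.card_Icc, Nat.add_sub_cancel, nsmul_eq_mul]; ring
        _ ≤ _ := by
            apply sum_le_sum
            intro j hj
            have := h3 j hj
            rw [abs_le] at this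
            linarith
    have h5 : L * ∑ b ∈ Icc 1 N, (cnt (a + b) y : ℝ) ≤ (1 + e) * y * N := by
      rw [first, mul_sum]
      calc ∑ j ∈ Icc 1 y, L * (cnt (a + j) N : ℝ) ≤ ∑ _j ∈ Icc 1 y, (1 + e) * (N : ℝ) := by
            apply sum_le_sum
            intro j hj
            have := h3 j hj
            rw [abs_le] at this
            linarith
        _ = (1 + e) * y * N := by
            rw [sum_const, Nat.card_Icc, Nat.add_sub_cancel, nsmul_eq_mul]; ring
    refine ⟨h4, h5, ?_⟩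
    rw [← hL] at h1
    have h6 := mul_le_mul_of_nonneg_left h1 (by positivity : 0 ≤ L ^ 2)
    have h7 : L ^ 2 * (∑ b ∈ Icc 1 N, (cnt (a + b) y : ℝ) + C * y ^ 2 * N / L ^ 2) =
        L * (L * ∑ b ∈ Icc 1 N, (cnt (a + b) y : ℝ)) + C * y ^ 2 * N := by
      field_simp
    rw [h7] at h6
    have h8 := mul_le_mul_of_nonneg_left h5 hL0.le
    have h9 : L * ((1 + e) * y * N) ≤ L * (2 * y * N) := by
      apply mul_le_mul_of_nonneg_left _ hL0.le
      have : (0 : ℝ) ≤ y * N := by positivity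
      nlinarith
    linarith
  rw [tuples_eq]
  apply assemble (U := U) (L := L) (by omega) hL hNL (fun x v =>
    (K * L ^ 2 ≤ r * x.2 ∧ (∑ i, (cnt (x.1 + v i) x.2 : ℝ)) * L ≤ (1 - e) * ((1 - e) * (r * x.2))) ∨
    (K * L ^ 2 ≤ r * Real.log x.2 ∧
      (1 + e) * ((1 + e) * (r * x.2)) ≤ (∑ i, (cnt (x.1 + v i) x.2 : ℝ)) * L))
  · intro v hv
    push Not at hv
    obtain ⟨a, y, ha, hy, h⟩ := hv
    have hy1 : 1 ≤ y := by
      by_contra hc
      have : y = 0 := by omega
      subst this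
      have h1 : ¬ K * L ^ 2 ≤ r * ((0 : ℕ) : ℝ) := by
        push_cast
        rw [mul_zero, not_le]
        positivity
      obtain ⟨h2, _⟩ := h (fun h3 => absurd h3 h1)
      rw [Nat.cast_zero, Real.log_zero] at h2
      rw [mul_zero] at h2
      have : 0 < K * L ^ 2 := by positivity
      linarith
    refine ⟨(a, y), mem_product.2 ⟨mem_range.2 (by omega), mem_Icc.2 ⟨hy1, hy⟩⟩, ?_⟩
    have hry : (0 : ℝ) ≤ r * y := by positivity
    by_cases h1 : K * L ^ 2 ≤ r * y → (1 - ε) * (r * y) ≤ total r v y a * L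
    · right
      obtain ⟨h2, h3⟩ := h h1
      rw [total_eq] at h3
      refine ⟨h2, ?_⟩
      have h4 : (1 + e) * (1 + e) * (r * y) ≤ (1 + ε) * (r * y) := by
        rw [hεe]
        apply mul_le_mul_of_nonneg_right _ hry
        nlinarith
      rw [mul_assoc] at h4
      dsimp only
      linarith
    · left
      push Not at h1
      obtain ⟨h2, h3⟩ := h1
      rw [total_eq] at h3
      refine ⟨h2, ?_⟩
      have h4 : (1 - ε) * (r * y) ≤ (1 - e) * (1 - e) * (r * y) := by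
        rw [hεe]
        apply mul_le_mul_of_nonneg_right _ hry
        nlinarith
      rw [mul_assoc] at h4
      dsimp only
      linarith
  · rintro ⟨a, y⟩ hx
    rw [mem_product, mem_range, mem_Icc] at hx
    obtain ⟨ha, hy1, hyN⟩ := hx
    dsimp only at ha hy1 hyN ⊢
    obtain ⟨hm1, hm2, hm3⟩ := hmom a y (by omega) hyN
    have hyL : Real.log y ≤ L := by
      rw [hL]
      apply Real.log_le_log
      · exact_mod_cast hy1
      · exact_mod_cast hyN
    have hlow : tup (Icc 1 N) r (fun v => K * L ^ 2 ≤ r * y ∧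
        (∑ i, (cnt (a + v i) y : ℝ)) * L ≤ (1 - e) * ((1 - e) * (r * y))) ≤
        Real.exp (-((U + 3) * L)) * (N : ℝ) ^ r := by
      by_cases h1 : K * L ^ 2 ≤ r * y
      · refine (tup_mono fun v _ hv => hv.2).trans
          (lowerA (K := K) (by linarith) two_pos (by linarith) hL0 he0 (by omega) ?_ hm1 hm3 hr h1)
        have h2 : (2 / 3 : ℝ) ^ 2 ≤ (1 - e) ^ 2 := by
          apply pow_le_pow_left₀ (by norm_num)
          linarith
        have h3 : 0 ≤ K * e ^ 2 := by positivity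
        have h4 := mul_le_mul_of_nonneg_left h2 h3
        have h5 : 0 ≤ (2 + C) * (U + 3) := by positivity
        nlinarith
      · have h2 : tup (Icc 1 N) r (fun v => K * L ^ 2 ≤ r * y ∧
            (∑ i, (cnt (a + v i) y : ℝ)) * L ≤ (1 - e) * ((1 - e) * (r * y))) = 0 :=
          tup_zero fun v hv => h1 hv.1
        rw [h2]
        positivity
    have hup : tup (Icc 1 N) r (fun v => K * L ^ 2 ≤ r * Real.log y ∧
        (1 + e) * ((1 + e) * (r * y)) ≤ (∑ i, (cnt (a + v i) y : ℝ)) * L) ≤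
        Real.exp (-((U + 3) * L)) * (N : ℝ) ^ r := by
      by_cases h1 : K * L ^ 2 ≤ r * Real.log y
      · have hy2 : 2 ≤ y := by
          by_contra hc
          have : y = 1 := by omega
          subst this
          rw [Nat.cast_one, Real.log_one, mul_zero] at h1
          have : 0 < K * L ^ 2 := by positivity
          linarith
        refine (tup_mono fun v _ hv => hv.2).trans
          (upperA (K := K) (B := B) (by linarith) two_pos (by linarith) hL0 he0 (by linarith) hy2 hyL ?_ ?_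
            (by positivity) (fun b _ => hBT _ _ hy2) hm2 hm3 h1)
        · have h2 : (1 : ℝ) ≤ (1 + e) ^ 2 := one_le_pow₀ (by linarith)
          have h3 : 0 ≤ K * e ^ 2 := by positivity
          have h4 := mul_le_mul_of_nonneg_left h2 h3
          have h5 : 0 ≤ (2 + C) * (U + 3) := by positivity
          nlinarith
        · have h3 : 0 ≤ K * e := by positivity
          nlinarith
      · have h2 : tup (Icc 1 N) r (fun v => K * L ^ 2 ≤ r * Real.log y ∧
            (1 + e) * ((1 + e) * (r * y)) ≤ (∑ i, (cnt (a + v i) y : ℝ)) * L) = 0 :=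
          tup_zero fun v hv => h1 hv.1
        rw [h2]
        positivity
    have hor := tup_union (Ω := Icc 1 N) (r := r) (ι := Bool) (Finset.univ : Finset Bool)
      (fun s v => if s then (K * L ^ 2 ≤ r * y ∧
        (∑ i, (cnt (a + v i) y : ℝ)) * L ≤ (1 - e) * ((1 - e) * (r * y))) else
        (K * L ^ 2 ≤ r * Real.log y ∧
        (1 + e) * ((1 + e) * (r * y)) ≤ (∑ i, (cnt (a + v i) y : ℝ)) * L))
      (t := Real.exp (-((U + 3) * L)) * (N : ℝ) ^ r) (by
        intro s _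
        cases s
        · simpa using hup
        · simpa using hlow)
    rw [Finset.card_univ, Fintype.card_bool] at hor
    refine (tup_mono ?_).trans hor
    intro v _ hv
    rcases hv with hv | hv
    · exact ⟨true, Finset.mem_univ _, by simpa using hv⟩
    · exact ⟨false, Finset.mem_univ _, by simpa using hv⟩

/-- The theorem of Hoheisel, uniformly. -/
theorem hoh : ∃ δ η : ℝ, 0 < δ ∧ δ ≤ 1 / 2 ∧ 0 < η ∧ ∀ᶠ N : ℕ in atTop, ∀ H : ℕ,
    (N : ℝ) ^ (1 - δ) ≤ H → H ≤ N → ∀ m ≤ 2 * N, η * H ≤ (cnt m H : ℝ) * Real.log N := by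
  obtain ⟨δ₀, η₀, hδ0, hδ1, hη0, X₀, hX2, hX⟩ := Pool.Agent.H295R3.D.hoheisel
  refine ⟨δ₀ / 2, η₀ / 6, by positivity, by linarith, by positivity, ?_⟩
  have hnat : Tendsto (fun n : ℕ => (n : ℝ)) atTop atTop := tendsto_natCast_atTop_atTop
  filter_upwards [eventually_ge_atTop 3,
    ((tendsto_rpow_atTop (by positivity : 0 < δ₀ / 2)).comp hnat).eventually_ge_atTop 6,
    ((tendsto_rpow_atTop (by norm_num : (0 : ℝ) < 1 / 2)).comp hnat).eventually_ge_atTop
      (2 * (X₀ : ℝ) + 6)] with N hN3 h1 h2 H hH1 hH2 m hm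
  simp only [Function.comp_apply] at h1 h2
  have hN0 : (0 : ℝ) < N := by exact_mod_cast (by omega : 0 < N)
  have hN1 : (1 : ℝ) ≤ N := by exact_mod_cast (by omega : 1 ≤ N)
  have hHb : 2 * (X₀ : ℝ) + 6 ≤ H := by
    refine h2.trans (le_trans ?_ hH1)
    apply Real.rpow_le_rpow_of_exponent_le hN1
    linarith
  have hHn : 2 * X₀ + 6 ≤ H := by exact_mod_cast hHb
  obtain ⟨h, hh⟩ : ∃ h, h = H / 2 := ⟨_, rfl⟩
  obtain ⟨X, hXd⟩ : ∃ X, X = max m (H - h) := ⟨_, rfl⟩
  have hX1 : m ≤ X := by rw [hXd]; exact le_max_left _ _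
  have hX2' : H - h ≤ X := by rw [hXd]; exact le_max_right _ _
  have hX3 : X ≤ 2 * N := by rw [hXd]; exact max_le hm (by omega)
  have hX4 : X + h ≤ m + H := by
    rcases max_choice m (H - h) with h3 | h3
    · rw [hXd, h3]; omega
    · rw [hXd, h3]; omega
  have hh3 : (H : ℝ) / 3 ≤ h := by
    have : H ≤ 3 * h := by omega
    have : (H : ℝ) ≤ 3 * h := by exact_mod_cast this
    linarith
  have hX0 : (0 : ℝ) < X := by exact_mod_cast (by omega : 0 < X)
  have hcond : (X : ℝ) ^ (1 - δ₀) ≤ h := by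
    refine le_trans ?_ hh3
    have h4 : (X : ℝ) ^ (1 - δ₀) ≤ (2 * N : ℝ) ^ (1 - δ₀) := by
      apply Real.rpow_le_rpow hX0.le _ (by linarith)
      exact_mod_cast hX3
    have h5 : (2 * N : ℝ) ^ (1 - δ₀) = (2 : ℝ) ^ (1 - δ₀) * (N : ℝ) ^ (1 - δ₀) :=
      Real.mul_rpow (by norm_num) hN0.le
    have h6 : (2 : ℝ) ^ (1 - δ₀) ≤ 2 := by
      calc (2 : ℝ) ^ (1 - δ₀) ≤ (2 : ℝ) ^ (1 : ℝ) :=
            Real.rpow_le_rpow_of_exponent_le (by norm_num) (by linarith)
        _ = 2 := Real.rpow_one 2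
    have h7 : (N : ℝ) ^ (1 - δ₀ / 2) = (N : ℝ) ^ (1 - δ₀) * (N : ℝ) ^ (δ₀ / 2) := by
      rw [← Real.rpow_add hN0]
      congr 1; ring
    have h8 : 0 ≤ (N : ℝ) ^ (1 - δ₀) := by positivity
    have h9 : (2 : ℝ) ^ (1 - δ₀) * (N : ℝ) ^ (1 - δ₀) ≤ 2 * (N : ℝ) ^ (1 - δ₀) :=
      mul_le_mul_of_nonneg_right h6 h8
    have h10 := mul_le_mul_of_nonneg_left h1 h8
    linarith
  have key := hX X h (by omega) hcond (by omega)
  have hsub : cnt X h ≤ cnt m H := cnt_sub hX1 hX4
  have hsub' : (cnt X h : ℝ) ≤ cnt m H := by exact_mod_cast hsub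
  have hlX : 0 < Real.log X := Real.log_pos (by exact_mod_cast (by omega : 1 < X))
  have hlN : 0 < Real.log N := Real.log_pos (by exact_mod_cast (by omega : 1 < N))
  have hlog : Real.log X ≤ 2 * Real.log N := by
    have h4 : Real.log X ≤ Real.log (2 * N) := by
      apply Real.log_le_log hX0
      exact_mod_cast hX3
    rw [Real.log_mul (by norm_num) hN0.ne'] at h4
    have h5 : Real.log 2 ≤ Real.log N :=
      Real.log_le_log (by norm_num) (by exact_mod_cast (by omega : 2 ≤ N))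
    linarith
  rw [div_le_iff₀ hlX] at key
  have h11 : η₀ * (H / 3) ≤ η₀ * h := mul_le_mul_of_nonneg_left hh3 hη0.le
  have h12 : (cnt X h : ℝ) * Real.log X ≤ cnt m H * (2 * Real.log N) :=
    mul_le_mul hsub' hlog hlX.le (Nat.cast_nonneg _)
  have h13 : η₀ * (h : ℝ) ≤ (cnt X h : ℝ) * Real.log X := key
  linarith

/-- Short shifts. -/
theorem part3 : ∃ δ K : ℝ, 0 < δ ∧ 0 < K ∧ ∀ U : ℝ, 1 ≤ U → ∀ᶠ N : ℕ in atTop, ∀ H r : ℕ,
    (N : ℝ) ^ (1 - δ) ≤ H → H ≤ N → K * U * Real.log N ≤ r →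
    tuples H r (fun b => ¬ ∀ a y : ℕ, a ≤ N → y ≤ N → K * U * Real.log N ^ 2 ≤ r * y →
      r * y ≤ K * (total r b y a * Real.log N)) ≤ (H : ℝ) ^ r / (N : ℝ) ^ U := by
  obtain ⟨C, hC, u0, hsec⟩ := second
  obtain ⟨B, hB, hBT⟩ := cnt_le
  obtain ⟨δ, η, hδ0, hδ1, hη, hho⟩ := hoh
  obtain ⟨K, hKd⟩ : ∃ K : ℝ, K = 64 * (B + 2 * C) / η ^ 2 + 3 / η := ⟨_, rfl⟩
  have hK0 : 0 < K := by rw [hKd]; positivity
  have hK1 : 64 * (B + 2 * C) ≤ K * η ^ 2 := by
    have h1 : 64 * (B + 2 * C) / η ^ 2 ≤ K := by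
      rw [hKd]
      have : 0 ≤ 3 / η := by positivity
      linarith
    rwa [div_le_iff₀ (by positivity)] at h1
  have hK2 : 3 ≤ K * η := by
    have h1 : 3 / η ≤ K := by
      rw [hKd]
      have : 0 ≤ 64 * (B + 2 * C) / η ^ 2 := by positivity
      linarith
    rwa [div_le_iff₀ hη] at h1
  refine ⟨δ, K, hδ0, hK0, fun U hU => ?_⟩
  have hnat : Tendsto (fun n : ℕ => (n : ℝ)) atTop atTop := tendsto_natCast_atTop_atTop
  filter_upwards [hho, eventually_ge_atTop 3,
    tendsto_log_nat.eventually_ge_atTop (Real.log 4),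
    ((tendsto_rpow_atTop (by norm_num : (0 : ℝ) < 1 / 2)).comp hnat).eventually_ge_atTop
      ((u0 : ℝ) + 2)] with N hN1 hN3 hNL hNu H r hH1 hH2 hr
  simp only [Function.comp_apply] at hNu
  obtain ⟨L, hL⟩ : ∃ L, L = Real.log N := ⟨_, rfl⟩
  rw [← hL] at hNL hr
  rw [← hL]
  have hL0 : 0 < L := lt_of_lt_of_le (Real.log_pos (by norm_num)) hNL
  have hN0 : (0 : ℝ) < N := by exact_mod_cast (by omega : 0 < N)
  have hNr1 : (1 : ℝ) ≤ N := by exact_mod_cast (by omega : 1 ≤ N)
  have hHh : (N : ℝ) ^ (1 / 2 : ℝ) ≤ H := by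
    refine le_trans ?_ hH1
    apply Real.rpow_le_rpow_of_exponent_le hNr1
    linarith
  have hHb : (u0 : ℝ) + 2 ≤ H := hNu.trans hHh
  have hHn : u0 + 2 ≤ H := by exact_mod_cast hHb
  have hH0 : (0 : ℝ) < H := by exact_mod_cast (by omega : 0 < H)
  have hHL : L / 2 ≤ Real.log H := by
    have h1 := Real.log_le_log (by positivity) hHh
    rw [Real.log_rpow hN0, ← hL] at h1
    linarith
  have hHl0 : 0 < Real.log H := by linarith
  have hmom : ∀ a y : ℕ, a ≤ N → y ≤ N →
      η * y * H ≤ L * ∑ b ∈ Icc 1 H, (cnt (a + b) y : ℝ) ∧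
      L ^ 2 * ∑ b ∈ Icc 1 H, (cnt (a + b) y : ℝ) ^ 2 ≤ H * (2 * B * y * L + 4 * C * y ^ 2) := by
    intro a y ha hy
    have h1 := hsec a y H (by omega)
    constructor
    · rw [first, mul_sum]
      calc η * y * H = ∑ _j ∈ Icc 1 y, η * (H : ℝ) := by
            rw [sum_const, Nat.card_Icc, Nat.add_sub_cancel, nsmul_eq_mul]; ring
        _ ≤ _ := by
            apply sum_le_sum
            intro j hj
            rw [mem_Icc] at hj
            have h3 := hN1 H hH1 hH2 (a + j) (by omega)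
            rw [← hL] at h3
            linarith
    · have h2 : ∑ b ∈ Icc 1 H, (cnt (a + b) y : ℝ) ≤ y * (B * H / Real.log H) := by
        rw [first]
        calc ∑ j ∈ Icc 1 y, (cnt (a + j) H : ℝ) ≤ ∑ _j ∈ Icc 1 y, B * H / Real.log H := by
              apply sum_le_sum
              intro j _
              exact hBT _ _ (by omega)
          _ = _ := by rw [sum_const, Nat.card_Icc, Nat.add_sub_cancel, nsmul_eq_mul]
      have h3 : L / Real.log H ≤ 2 := by
        rw [div_le_iff₀ hHl0]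
        linarith
      have h3' : 0 ≤ L / Real.log H := by positivity
      have h4 : L ^ 2 * ∑ b ∈ Icc 1 H, (cnt (a + b) y : ℝ) ^ 2 ≤
          L ^ 2 * (y * (B * H / Real.log H) + C * y ^ 2 * H / Real.log H ^ 2) := by
        apply mul_le_mul_of_nonneg_left _ (by positivity)
        linarith
      have h5 : L ^ 2 * (y * (B * H / Real.log H) + C * y ^ 2 * H / Real.log H ^ 2) =
          y * B * H * L * (L / Real.log H) + C * y ^ 2 * H * (L / Real.log H) ^ 2 := by
        field_simp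
      rw [h5] at h4
      have h6 : y * B * H * L * (L / Real.log H) ≤ y * B * H * L * 2 :=
        mul_le_mul_of_nonneg_left h3 (by positivity)
      have h7 : (L / Real.log H) ^ 2 ≤ 2 ^ 2 := pow_le_pow_left₀ h3' h3 2
      have h8 : C * y ^ 2 * H * (L / Real.log H) ^ 2 ≤ C * y ^ 2 * H * 2 ^ 2 :=
        mul_le_mul_of_nonneg_left h7 (by positivity)
      nlinarith
  rw [tuples_eq]
  apply assemble (U := U) (L := L) (by omega) hL hNL (fun x v =>
    K * U * L ^ 2 ≤ r * x.2 ∧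
      (∑ i, (cnt (x.1 + v i) x.2 : ℝ)) * L ≤ (1 - 1 / 2) * (η * (r * x.2)))
  · intro v hv
    push Not at hv
    obtain ⟨a, y, ha, hy, h1, h2⟩ := hv
    have hKU : 0 < K * U * L ^ 2 := by positivity
    have hy1 : 1 ≤ y := by
      by_contra hc
      have : y = 0 := by omega
      subst this
      rw [Nat.cast_zero, mul_zero] at h1
      linarith
    refine ⟨(a, y), mem_product.2 ⟨mem_range.2 (by omega), mem_Icc.2 ⟨hy1, hy⟩⟩, h1, ?_⟩
    rw [total_eq] at h2
    dsimp only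
    have hT : 0 ≤ (∑ i, (cnt (a + v i) y : ℝ)) * L := by positivity
    have h3 : K * η * ((∑ i, (cnt (a + v i) y : ℝ)) * L) ≤ η * (r * y) := by
      have := mul_le_mul_of_nonneg_left h2.le hη.le
      linarith
    have h4 := mul_le_mul_of_nonneg_right hK2 hT
    linarith
  · rintro ⟨a, y⟩ hx
    rw [mem_product, mem_range, mem_Icc] at hx
    obtain ⟨ha, hy1, hyN⟩ := hx
    dsimp only at ha hy1 hyN ⊢
    obtain ⟨hm1, hm2⟩ := hmom a y (by omega) hyN
    have hlow : tup (Icc 1 H) r (fun v => K * U * L ^ 2 ≤ r * y ∧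
        (∑ i, (cnt (a + v i) y : ℝ)) * L ≤ (1 - 1 / 2) * (η * (r * y))) ≤
        Real.exp (-((U + 3) * L)) * (H : ℝ) ^ r := by
      by_cases h1 : K * U * L ^ 2 ≤ r * y
      · refine (tup_mono fun v _ hv => hv.2).trans
          (lowerA (K := K * U) (c₁ := 2 * B) (c₂ := 4 * C) hη (by linarith) (by linarith) hL0
            (by norm_num : (0 : ℝ) < 1 / 2) (by omega) ?_ hm1 hm2 hr h1)
        have h3 := mul_le_mul_of_nonneg_right hK1 (by linarith : 0 ≤ U)
        have h4 : (B + 2 * C) * (U + 3) ≤ (B + 2 * C) * (4 * U) :=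
          mul_le_mul_of_nonneg_left (by linarith) (by linarith)
        nlinarith
      · have h2 : tup (Icc 1 H) r (fun v => K * U * L ^ 2 ≤ r * y ∧
            (∑ i, (cnt (a + v i) y : ℝ)) * L ≤ (1 - 1 / 2) * (η * (r * y))) = 0 :=
          tup_zero fun v hv => h1 hv.1
        rw [h2]
        positivity
    have h5 : 0 ≤ Real.exp (-((U + 3) * L)) * (H : ℝ) ^ r := by positivity
    linarith

/-- **Cramér's bound for the unions of typical translates of the primes.** -/
theorem result :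
    (∀ U ε : ℝ, 0 < U → 0 < ε → ∃ A : ℝ, ∀ᶠ N : ℕ in atTop, ∀ r y : ℕ,
      A * Real.log N ≤ r → (1 + U + ε) * Real.log N ^ 2 ≤ r * y →
      tuples N r (fun b => ¬ ∀ a ≤ N, ∃ i, ∃ p : ℕ, p.Prime ∧ a + b i < p ∧ p ≤ a + b i + y) ≤
        (N : ℝ) ^ r / (N : ℝ) ^ U) ∧
    (∀ U ε : ℝ, 0 < U → 0 < ε → ε ≤ 1 → ∃ K : ℝ, ∀ᶠ N : ℕ in atTop, ∀ r : ℕ, K * Real.log N ≤ r →
      tuples N r (fun b => ¬ ∀ a y : ℕ, a ≤ N → y ≤ N →
        (K * Real.log N ^ 2 ≤ r * y → (1 - ε) * (r * y) ≤ total r b y a * Real.log N) ∧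
        (K * Real.log N ^ 2 ≤ r * Real.log y → total r b y a * Real.log N ≤ (1 + ε) * (r * y))) ≤
        (N : ℝ) ^ r / (N : ℝ) ^ U) ∧
    (∃ δ K : ℝ, 0 < δ ∧ 0 < K ∧ ∀ U : ℝ, 1 ≤ U → ∀ᶠ N : ℕ in atTop, ∀ H r : ℕ,
      (N : ℝ) ^ (1 - δ) ≤ H → H ≤ N → K * U * Real.log N ≤ r →
      tuples H r (fun b => ¬ ∀ a y : ℕ, a ≤ N → y ≤ N → K * U * Real.log N ^ 2 ≤ r * y →
        r * y ≤ K * (total r b y a * Real.log N)) ≤ (H : ℝ) ^ r / (N : ℝ) ^ U) :=
  ⟨part1, part2, part3⟩

end Pool.Agent.Results.MP_3bc45c_nt.TypicalSumsets
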